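import Mathlib
import Pool.Agent.H512DC.Sym

/-!
# Acyclic elements of continuous decompositions of the plane have symmetric span zero
-/

set_option autoImplicit false

open Set Topology TopologicalSpace

namespace Pool.Agent.Results.MP_a6ceca_gt.SymmetricSpanZero

open Pool.Agent.H512DC

/-- a Hausdorff continuous decomposition of the plane into compact connected sets has uncountably
many elements -/
theorem uncountable_range {f : E → Set E} (hf1 : ∀ p, p ∈ f p) (hf3 : ∀ p, IsCompact (f p))
    (hf4 : ∀ p, ∀ ε > (0 : ℝ), ∃ δ > (0 : ℝ), ∀ q,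
      dist p q < δ → Metric.hausdorffDist (f p) (f q) < ε) : ¬ (range f).Countable := by
  intro hcount
  have hfin : ∀ p q, Metric.hausdorffEDist (f p) (f q) ≠ ⊤ := fun p q =>
    Metric.hausdorffEDist_ne_top_of_nonempty_of_bounded ⟨p, hf1 p⟩ ⟨q, hf1 q⟩ (hf3 p).isBounded
      (hf3 q).isBounded
  set g : E → ℝ := fun p => Metric.hausdorffDist (f p) (f 0) with hg
  have hgc : Continuous g := by
    rw [Metric.continuous_iff]
    intro p ε hε
    obtain ⟨δ, hδ, h⟩ := hf4 p ε hε
    refine ⟨δ, hδ, fun q hq => ?_⟩
    have h1 := h q (by rwa [dist_comm])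
    have e1 : g p ≤ Metric.hausdorffDist (f p) (f q) + g q :=
      Metric.hausdorffDist_triangle (hfin p q)
    have e2 : g q ≤ Metric.hausdorffDist (f q) (f p) + g p :=
      Metric.hausdorffDist_triangle (hfin q p)
    rw [Metric.hausdorffDist_comm] at e2
    rw [Real.dist_eq, abs_lt]
    constructor <;> linarith
  have hgr : (range g).Countable := by
    have : range g = (fun s => Metric.hausdorffDist s (f 0)) '' range f := by
      rw [← range_comp]
      rfl
    rw [this]
    exact hcount.image _
  have hsub := hgr.isTotallyDisconnected (range g) Subset.rfl (isPreconnected_range hgc)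
  have hz : ∀ p, f p = f 0 := by
    intro p
    have h1 : g p = g 0 := hsub ⟨p, rfl⟩ ⟨0, rfl⟩
    have h2 : g 0 = 0 := Metric.hausdorffDist_self_zero
    rw [h2] at h1
    exact ((hf3 p).isClosed.hausdorffDist_zero_iff_eq (hf3 0).isClosed (hfin p 0)).1 h1
  have huniv : f 0 = univ := by
    apply eq_univ_of_forall
    intro p
    rw [← hz p]
    exact hf1 p
  have hcomp := hf3 0
  rw [huniv] at hcomp
  exact noncompact_univ E hcomp

/-- **Theorem.** Let `X` be a continuum such that every continuous function from `X` to the nonzero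
complex numbers has a continuous logarithm.  If the plane has a continuous decomposition into sets
homeomorphic to `X` then `X` has symmetric span zero: every continuum `Z ⊆ X × X` which contains
`(A, B)` and `(B, A)` for some `A, B` meets the diagonal. -/
theorem result (X : Type) [TopologicalSpace X] [MetrizableSpace X] [CompactSpace X]
    [ConnectedSpace X] (hLP : LP X)
    (hdec : ∃ f : E → Set E, (∀ p, p ∈ f p) ∧ (∀ p q, q ∈ f p → f q = f p) ∧
      (∀ p, Nonempty (↥(f p) ≃ₜ X)) ∧
      (∀ p, ∀ ε > (0 : ℝ), ∃ δ > (0 : ℝ), ∀ q,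
        dist p q < δ → Metric.hausdorffDist (f p) (f q) < ε)) :
    ∀ Z : Set (X × X), IsConnected Z → IsCompact Z →
      ∀ A B : X, (A, B) ∈ Z → (B, A) ∈ Z → ∃ x, (x, x) ∈ Z := by
  letI : MetricSpace X := metrizableSpaceMetric X
  intro Z hZ hk A B h1 h2
  obtain ⟨f, hf1, hf2, hf3, hf4⟩ := hdec
  have hcomp : ∀ p, IsCompact (f p) := by
    intro p
    obtain ⟨e⟩ := hf3 p
    rw [isCompact_iff_compactSpace]
    exact e.symm.compactSpace
  have hunc := uncountable_range hf1 hcomp hf4
  have hex : ∀ A : range f, ∃ F : C(X, E), (∀ x, F x ∈ (A : Set E)) ∧ Function.Injective F := by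
    rintro ⟨_, p, rfl⟩
    obtain ⟨e⟩ := hf3 p
    exact ⟨⟨fun x => (e.symm x : E), continuous_subtype_val.comp e.symm.continuous⟩,
      fun x => (e.symm x).2, fun x y h => e.symm.injective (Subtype.ext h)⟩
  choose F hF hFi using hex
  have hacc : ∃ A0 : range f, ∀ δ : ℝ, 0 < δ → ∃ A1 : range f, A1 ≠ A0 ∧
      dist (F A1) (F A0) < δ := by
    by_contra hcon
    push Not at hcon
    choose δ hδ hsep using hcon
    apply hunc
    have hpd : (univ : Set (range f)).PairwiseDisjoint (fun A => Metric.ball (F A) (δ A / 2)) := by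
      intro A _ B _ hAB
      refine Metric.ball_disjoint_ball ?_
      have e1 := hsep A B hAB.symm
      have e2 := hsep B A hAB
      rw [dist_comm] at e2
      rw [dist_comm]
      linarith
    have hcnt := hpd.countable_of_isOpen (fun A _ => Metric.isOpen_ball)
      (fun A _ => ⟨F A, Metric.mem_ball_self (by have := hδ A; linarith)⟩)
    have : Countable (range f) := countable_univ_iff.1 hcnt
    exact Set.countable_coe_iff.1 this
  obtain ⟨A0, hA0⟩ := hacc
  refine sym_zero hLP (base := F A0) (F A0).continuous (hFi A0) ?_ hZ.isPreconnected hk h1 h2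
  intro δ hδ
  obtain ⟨A1, hne, hlt⟩ := hA0 δ hδ
  refine ⟨F A1, F A0, (F A1).continuous, (F A0).continuous, ?_, ?_, ?_⟩
  · intro x y hxy
    apply hne
    obtain ⟨p, hp⟩ := A1.2
    obtain ⟨q, hq⟩ := A0.2
    have a1 : F A1 x ∈ f p := by rw [hp]; exact hF A1 x
    have a2 : F A1 x ∈ f q := by rw [hq, hxy]; exact hF A0 y
    apply Subtype.ext
    rw [← hp, ← hq, ← hf2 p _ a1, ← hf2 q _ a2]
  · intro x
    exact (ContinuousMap.dist_apply_le_dist x).trans hlt.le
  · intro x
    rw [dist_self]
    exact hδ.le

end Pool.Agent.Results.MP_a6ceca_gt.SymmetricSpanZero
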